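import Pool.Agent.H98.KS.Targets3

/-!
# MP_ff41bc_an, module HP: the high part in `l^2`
-/

set_option autoImplicit false

open scoped BigOperators
open Finset MeasureTheory

namespace Pool.Agent.H4.KS

open Pool.Agent.H98.KS

lemma hp_ee_cont : Continuous ee := by
  unfold ee
  fun_prop

lemma hp_cont (k X : ℕ) {d : ℕ} (F : Finset (Fin d → ℤ)) (x : Fin d → ℤ) (a : ℤ) (q : ℕ) :
    Continuous fun κ : ℝ => ‖KF k F X (th k X a q κ) x‖ := by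
  refine Continuous.norm ?_
  unfold KF th
  refine continuous_finsetSum _ fun y _ => ?_
  exact hp_ee_cont.comp (by fun_prop)

lemma hp_low_meas (k : ℕ) (Y : ℝ) (q : ℕ) : MeasurableSet {κ : ℝ | ¬ low k Y q κ} := by
  have h : {κ : ℝ | low k Y q κ} = {_κ : ℝ | (q : ℝ) ≤ Y} ∩ {κ : ℝ | |κ| ≤ kap k Y q} := rfl
  have h2 : MeasurableSet {κ : ℝ | low k Y q κ} := by
    rw [h]
    exact (MeasurableSet.const _).inter
      (measurableSet_le continuous_abs.measurable measurable_const)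
  exact h2.compl

lemma hp_big_meas (X q : ℕ) : MeasurableSet {κ : ℝ | big X q κ} := by
  have h : {κ : ℝ | big X q κ} = {_κ : ℝ | (q : ℝ) ≤ (X : ℝ) ^ ((1 : ℝ) / 20)} ∩
    {κ : ℝ | |κ| ≤ (X : ℝ) ^ ((1 : ℝ) / 20)} := rfl
  rw [h]
  exact (MeasurableSet.const _).inter
    (measurableSet_le continuous_abs.measurable measurable_const)

lemma hp_big_int {G : ℝ → ℝ} (hG : Continuous G) (X q : ℕ) :
    Integrable (Set.indicator {κ : ℝ | big X q κ} G) := by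
  rw [integrable_indicator_iff (hp_big_meas X q)]
  refine (hG.continuousOn.integrableOn_compact (isCompact_Icc
    (a := -((X : ℝ) ^ ((1 : ℝ) / 20))) (b := (X : ℝ) ^ ((1 : ℝ) / 20)))).mono_set ?_
  rintro κ ⟨-, h⟩
  exact abs_le.1 h

lemma hp_big_split {G : ℝ → ℝ} (X : ℕ) {k q : ℕ} (hq : 1 ≤ q) (Y : ℝ) :
    ∫ κ in {κ : ℝ | ¬ low k Y q κ}, Set.indicator {κ : ℝ | big X q κ} G κ =
    if q ∈ Finset.Icc 1 (Qx X) then
      ∫ κ in {κ : ℝ | |κ| ≤ (X : ℝ) ^ ((1 : ℝ) / 20) ∧ ¬ low k Y q κ}, G κ else 0 := by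
  rw [setIntegral_indicator (hp_big_meas X q)]
  split_ifs with h
  · congr 2
    ext κ
    rw [Finset.mem_Icc] at h
    have h1 : (q : ℝ) ≤ (X : ℝ) ^ ((1 : ℝ) / 20) := by
      have h2 : (q : ℝ) ≤ (Qx X : ℕ) := by exact_mod_cast h.2
      exact h2.trans (Nat.floor_le (by positivity))
    constructor
    · rintro ⟨h2, -, h3⟩
      exact ⟨h3, h2⟩
    · rintro ⟨h2, h3⟩
      exact ⟨h3, h1, h2⟩
  · have h1 : {κ : ℝ | ¬ low k Y q κ} ∩ {κ : ℝ | big X q κ} = ∅ := by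
      ext κ
      simp only [Set.mem_inter_iff, Set.mem_empty_iff_false, iff_false, not_and]
      rintro - ⟨h2, -⟩
      apply h
      rw [Finset.mem_Icc]
      exact ⟨hq, Nat.le_floor h2⟩
    rw [h1]
    simp

lemma hp_res (q : ℕ) (hq : 1 ≤ q) : ((res q).card : ℝ) ≤ 2 * q := by
  have h1 : (res q).card ≤ q + 1 := by
    unfold res
    refine (Finset.card_filter_le _ _).trans ?_
    simp
  have h2 : ((res q).card : ℝ) ≤ q + 1 := by exact_mod_cast h1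
  have h3 : (1 : ℝ) ≤ q := by exact_mod_cast hq
  linarith

lemma hp_BB_nonneg (k d q : ℕ) (κ : ℝ) : 0 ≤ BB k d q κ := by
  unfold BB
  have h1 : 0 ≤ Real.log (3 + |κ|) := Real.log_nonneg (by linarith [abs_nonneg κ])
  positivity

/-- Minkowski's inequality by duality -/
lemma hp_dual {ι α : Type} (S : Finset α) (I : Finset ι) (s : ι → Set ℝ)
    (g : ι → ℝ → α → ℝ) (b : ι → ℝ → ℝ) (R : ℝ) (hR : 0 ≤ R)
    (hg : ∀ i ∈ I, ∀ x ∈ S, Integrable (fun κ => g i κ x))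
    (hb : ∀ i ∈ I, Integrable (b i)) (hb0 : ∀ i ∈ I, ∀ κ, 0 ≤ b i κ)
    (h : ∀ i ∈ I, ∀ κ, ∑ x ∈ S, (g i κ x) ^ 2 ≤ (R * b i κ) ^ 2) :
    ∑ x ∈ S, (∑ i ∈ I, ∫ κ in s i, g i κ x) ^ 2 ≤ (R * ∑ i ∈ I, ∫ κ in s i, b i κ) ^ 2 := by
  obtain ⟨H, hH⟩ : ∃ H : α → ℝ, H = fun x => ∑ i ∈ I, ∫ κ in s i, g i κ x := ⟨_, rfl⟩
  obtain ⟨A, hA⟩ : ∃ A : ℝ, A = ∑ x ∈ S, H x ^ 2 := ⟨_, rfl⟩
  have hA0 : 0 ≤ A := by
    rw [hA]
    exact Finset.sum_nonneg fun x _ => sq_nonneg _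
  have hgoal : ∑ x ∈ S, (∑ i ∈ I, ∫ κ in s i, g i κ x) ^ 2 = A := by
    rw [hA, hH]
  rw [hgoal]
  have h1 : A = ∑ i ∈ I, ∫ κ in s i, ∑ x ∈ S, H x * g i κ x := by
    have h2 : A = ∑ x ∈ S, ∑ i ∈ I, H x * ∫ κ in s i, g i κ x := by
      rw [hA]
      refine Finset.sum_congr rfl fun x _ => ?_
      rw [← Finset.mul_sum, sq]
      congr 1
      rw [hH]
    rw [h2, Finset.sum_comm]
    refine Finset.sum_congr rfl fun i hi => ?_
    rw [integral_finsetSum]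
    · refine Finset.sum_congr rfl fun x _ => ?_
      rw [integral_const_mul]
    · intro x hx
      exact ((hg i hi x hx).integrableOn).const_mul _
  have h2 : ∀ i ∈ I, ∫ κ in s i, ∑ x ∈ S, H x * g i κ x ≤ √A * (R * ∫ κ in s i, b i κ) := by
    intro i hi
    rw [← integral_const_mul, ← integral_const_mul]
    refine integral_mono ?_ ?_ ?_
    · exact (integrable_finsetSum _ fun x hx => ((hg i hi x hx).const_mul _)).integrableOn
    · exact (((hb i hi).const_mul _).const_mul _).integrableOn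
    · intro κ
      refine (Real.sum_mul_le_sqrt_mul_sqrt _ _ _).trans ?_
      rw [← hA]
      refine mul_le_mul_of_nonneg_left ?_ (Real.sqrt_nonneg _)
      exact Real.sqrt_le_iff.2 ⟨mul_nonneg hR (hb0 i hi κ), h i hi κ⟩
  obtain ⟨T, hT⟩ : ∃ T, T = R * ∑ i ∈ I, ∫ κ in s i, b i κ := ⟨_, rfl⟩
  have hT0 : 0 ≤ T := by
    rw [hT]
    refine mul_nonneg hR (Finset.sum_nonneg fun i hi => ?_)
    exact integral_nonneg fun κ => hb0 i hi κ
  rw [← hT]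
  have h3 : A ≤ √A * T := by
    calc A = ∑ i ∈ I, ∫ κ in s i, ∑ x ∈ S, H x * g i κ x := h1
      _ ≤ ∑ i ∈ I, √A * (R * ∫ κ in s i, b i κ) := Finset.sum_le_sum h2
      _ = √A * T := by rw [hT, ← Finset.mul_sum, ← Finset.mul_sum]
  have h4 : √A * √A = A := Real.mul_self_sqrt hA0
  have h5 : √A ≤ T := by
    by_contra h6
    push Not at h6
    have h7 : 0 < √A := lt_of_le_of_lt hT0 h6
    nlinarith
  calc A = √A * √A := h4.symm
    _ ≤ T * T := mul_le_mul h5 h5 (Real.sqrt_nonneg _) hT0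
    _ = T ^ 2 := by ring

theorem ks_HP (hME : T_ME) (hINT : T_INT) (hGB : ∀ k : ℕ, 3 ≤ k → ∃ C : ℝ, GB k C) : T_HP := by
  intro k hk
  obtain ⟨Cg, hCg⟩ := hGB k hk
  obtain ⟨D, hD⟩ := hINT k hk
  refine ⟨max D 1, fun d hd => ?_⟩
  obtain ⟨hBB, C2, hC2, hI⟩ := hD d ((le_max_left _ _).trans hd)
  obtain ⟨C1, hC1, hM⟩ := hME k Cg hk hCg d ((le_max_right _ _).trans hd)
  refine ⟨(2 * C1 * C2) ^ 2, by positivity, fun Y F S j hY => ?_⟩
  obtain ⟨Qm, hQm⟩ : ∃ Qm, Qm = S.sup (fun x => Qx (2 ^ j x)) := ⟨_, rfl⟩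
  obtain ⟨I, hIdef⟩ : ∃ I : Finset ((_ : ℕ) × ℕ), I = (Finset.Icc 1 Qm).sigma fun q => res q :=
    ⟨_, rfl⟩
  obtain ⟨G, hG⟩ : ∃ G : ((_ : ℕ) × ℕ) → ℝ → (Fin d → ℤ) → ℝ, G = fun i κ x =>
    ‖KF k F (2 ^ j x) (th k (2 ^ j x) i.2 i.1 κ) x‖ / ((2 : ℝ) ^ j x) ^ d := ⟨_, rfl⟩
  obtain ⟨g, hg⟩ : ∃ g : ((_ : ℕ) × ℕ) → ℝ → (Fin d → ℤ) → ℝ, g = fun i κ x =>
    Set.indicator {κ : ℝ | big (2 ^ j x) i.1 κ} (fun κ => G i κ x) κ := ⟨_, rfl⟩
  have hGc : ∀ i x, Continuous fun κ => G i κ x := by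
    intro i x
    rw [hG]
    exact (hp_cont k (2 ^ j x) F x i.2 i.1).div_const _
  have hmem : ∀ i ∈ I, 1 ≤ i.1 ∧ i.1 ≤ Qm ∧ i.2 ∈ res i.1 := by
    intro i hi
    rw [hIdef, Finset.mem_sigma, Finset.mem_Icc] at hi
    exact ⟨hi.1.1, hi.1.2, hi.2⟩
  have hdual := hp_dual S I (fun i => {κ : ℝ | ¬ low k Y i.1 κ}) g (fun i => BB k d i.1)
    (C1 * √(F.card : ℝ)) (by positivity) (fun i hi x hx => by
      rw [hg]
      exact hp_big_int (hGc i x) (2 ^ j x) i.1)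
    (fun i hi => hBB i.1 (hmem i hi).1) (fun i _ κ => hp_BB_nonneg k d i.1 κ)
    (fun i hi κ => by
      classical
      obtain ⟨h1, -, h2⟩ := hmem i hi
      have hcop : IsCoprime (i.2 : ℤ) (i.1 : ℤ) := by
        unfold res at h2
        exact Nat.isCoprime_iff_coprime.2 (Finset.mem_filter.1 h2).2
      have h3 := hM i.1 i.2 κ F (S.filter fun x => big (2 ^ j x) i.1 κ) j h1 hcop
        fun x hx => (Finset.mem_filter.1 hx).2
      have h4 : ∑ x ∈ S, (g i κ x) ^ 2 =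
          ∑ x ∈ S.filter (fun x => big (2 ^ j x) i.1 κ), (G i κ x) ^ 2 := by
        rw [Finset.sum_filter]
        refine Finset.sum_congr rfl fun x _ => ?_
        rw [hg]
        simp only []
        by_cases h5 : big (2 ^ j x) i.1 κ
        · rw [if_pos h5, Set.indicator_of_mem (by exact h5)]
        · rw [if_neg h5, Set.indicator_of_notMem (by exact h5)]
          simp
      rw [h4]
      have h5 : (C1 * √(F.card : ℝ) * BB k d i.1 κ) ^ 2 = (C1 * BB k d i.1 κ) ^ 2 * F.card := by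
        have h6 : √(F.card : ℝ) ^ 2 = F.card := Real.sq_sqrt (Nat.cast_nonneg _)
        calc (C1 * √(F.card : ℝ) * BB k d i.1 κ) ^ 2 =
              (C1 * BB k d i.1 κ) ^ 2 * √(F.card : ℝ) ^ 2 := by ring
          _ = _ := by rw [h6]
      rw [h5]
      rw [hG]
      exact h3)
  have hleft : ∀ x ∈ S, ∑ i ∈ I, ∫ κ in {κ : ℝ | ¬ low k Y i.1 κ}, g i κ x =
      ∑ q ∈ Finset.Icc 1 (Qx (2 ^ j x)), ∑ a ∈ res q,
        ∫ κ in {κ : ℝ | |κ| ≤ (((2 ^ j x : ℕ) : ℝ)) ^ ((1 : ℝ) / 20) ∧ ¬ low k Y q κ},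
        ‖KF k F (2 ^ j x) (th k (2 ^ j x) a q κ) x‖ / ((2 : ℝ) ^ j x) ^ d := by
    intro x hx
    rw [hIdef, Finset.sum_sigma]
    have h1 : Finset.Icc 1 (Qx (2 ^ j x)) ⊆ Finset.Icc 1 Qm := by
      apply Finset.Icc_subset_Icc le_rfl
      rw [hQm]
      exact Finset.le_sup (f := fun x => Qx (2 ^ j x)) hx
    have h2 : ∀ q ∈ Finset.Icc 1 Qm, ∀ a ∈ res q,
        ∫ κ in {κ : ℝ | ¬ low k Y q κ}, g ⟨q, a⟩ κ x =
        if q ∈ Finset.Icc 1 (Qx (2 ^ j x)) then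
          ∫ κ in {κ : ℝ | |κ| ≤ (((2 ^ j x : ℕ) : ℝ)) ^ ((1 : ℝ) / 20) ∧ ¬ low k Y q κ},
            ‖KF k F (2 ^ j x) (th k (2 ^ j x) a q κ) x‖ / ((2 : ℝ) ^ j x) ^ d else 0 := by
      intro q hq a _
      rw [hg, hG]
      exact hp_big_split (2 ^ j x) (Finset.mem_Icc.1 hq).1 Y
    rw [Finset.sum_congr rfl fun q hq => Finset.sum_congr rfl fun a ha => h2 q hq a ha]
    symm
    rw [← Finset.sum_subset h1]
    · refine Finset.sum_congr rfl fun q hq => Finset.sum_congr rfl fun a _ => ?_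
      rw [if_pos hq]
    · intro q _ hq
      exact Finset.sum_eq_zero fun a _ => by rw [if_neg hq]
  rw [Finset.sum_congr rfl fun x hx => by rw [hleft x hx]] at hdual
  refine hdual.trans ?_
  have hW : ∑ i ∈ I, ∫ κ in {κ : ℝ | ¬ low k Y i.1 κ}, BB k d i.1 κ ≤
      2 * (C2 * Y ^ (2 - (d : ℝ) / k)) := by
    rw [hIdef, Finset.sum_sigma]
    calc ∑ q ∈ Finset.Icc 1 Qm, ∑ a ∈ res q, ∫ κ in {κ : ℝ | ¬ low k Y q κ}, BB k d q κ
        ≤ ∑ q ∈ Finset.Icc 1 Qm, 2 * ((q : ℝ) * ∫ κ in {κ : ℝ | ¬ low k Y q κ}, BB k d q κ) := by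
          refine Finset.sum_le_sum fun q hq => ?_
          rw [Finset.sum_const, nsmul_eq_mul]
          have h0 : 0 ≤ ∫ κ in {κ : ℝ | ¬ low k Y q κ}, BB k d q κ :=
            integral_nonneg fun κ => hp_BB_nonneg k d q κ
          calc _ ≤ (2 * (q : ℝ)) * ∫ κ in {κ : ℝ | ¬ low k Y q κ}, BB k d q κ :=
                mul_le_mul_of_nonneg_right (hp_res q (Finset.mem_Icc.1 hq).1) h0
            _ = _ := by ring
      _ = 2 * ∑ q ∈ Finset.Icc 1 Qm, (q : ℝ) * ∫ κ in {κ : ℝ | ¬ low k Y q κ}, BB k d q κ := by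
          rw [Finset.mul_sum]
      _ ≤ _ := by
          have := hI Y Qm hY
          linarith
  have hW0 : 0 ≤ ∑ i ∈ I, ∫ κ in {κ : ℝ | ¬ low k Y i.1 κ}, BB k d i.1 κ :=
    Finset.sum_nonneg fun i _ => integral_nonneg fun κ => hp_BB_nonneg k d i.1 κ
  calc (C1 * √(F.card : ℝ) * ∑ i ∈ I, ∫ κ in {κ : ℝ | ¬ low k Y i.1 κ}, BB k d i.1 κ) ^ 2
      ≤ (C1 * √(F.card : ℝ) * (2 * (C2 * Y ^ (2 - (d : ℝ) / k)))) ^ 2 := by
        refine pow_le_pow_left₀ (by positivity) ?_ 2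
        exact mul_le_mul_of_nonneg_left hW (by positivity)
    _ = (2 * C1 * C2) ^ 2 * (Y ^ (2 - (d : ℝ) / k)) ^ 2 * √(F.card : ℝ) ^ 2 := by ring
    _ = _ := by rw [Real.sq_sqrt (Nat.cast_nonneg _)]

end Pool.Agent.H4.KS
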