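import Pool.Agent.H98.KS.Targets3

/-!
# MP_ff41bc_an, module CV: the pointwise inequality at one scale
-/

set_option autoImplicit false

open scoped BigOperators
open Finset MeasureTheory

namespace Pool.Agent.H4.KS

open Pool.Agent.H98.KS

lemma cv_norm (x : ℝ) : ‖ee x‖ = 1 := by
  unfold ee
  have h : (2 * (Real.pi : ℂ) * (x : ℂ) * Complex.I) = ((2 * Real.pi * x : ℝ) : ℂ) * Complex.I := by
    push_cast
    ring
  rw [h, Complex.norm_exp_ofReal_mul_I]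

lemma cv_ee_cont : Continuous ee := by
  unfold ee
  fun_prop

lemma cv_cont (k X : ℕ) {d : ℕ} (F : Finset (Fin d → ℤ)) (x : Fin d → ℤ) :
    Continuous fun θ : ℝ => KF k F X θ x := by
  unfold KF
  refine continuous_finsetSum _ fun y _ => ?_
  exact cv_ee_cont.comp (by fun_prop)

lemma cv_th_cont (k X : ℕ) (a : ℤ) (q : ℕ) : Continuous fun κ : ℝ => th k X a q κ := by
  unfold th
  fun_prop

/-- trivial bound of the kernel sum at a sparse point -/
lemma cv_triv {k d X : ℕ} {F : Finset (Fin d → ℤ)} {x : Fin d → ℤ} {N c2 : ℝ} (hN : 1 ≤ N)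
    (hc2 : 0 ≤ c2) (hX : 1 ≤ X) (hS : Sparse N c2 F x) (θ : ℝ) :
    ‖KF k F X θ x‖ ≤ c2 * 3 ^ d * ((X : ℝ) / N) ^ d := by
  have h1 : ‖KF k F X θ x‖ ≤ ((F.filter (fun y => ∀ i, |y i - x i| ≤ X)).card : ℝ) := by
    unfold KF
    refine (norm_sum_le _ _).trans (le_of_eq ?_)
    rw [Finset.sum_congr rfl fun y _ => cv_norm _]
    rw [Finset.sum_const, nsmul_eq_mul, mul_one]
    congr 2
    refine Finset.filter_congr fun y _ => ?_
    refine forall_congr' fun i => ?_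
    rw [abs_sub_comm]
  refine h1.trans ((hS X).trans ?_)
  have hN0 : 0 < N := by linarith
  have hX' : (1 : ℝ) ≤ X := by exact_mod_cast hX
  calc c2 / N ^ d * (2 * (X : ℝ) + 1) ^ d ≤ c2 / N ^ d * (3 * (X : ℝ)) ^ d := by
        refine mul_le_mul_of_nonneg_left ?_ (by positivity)
        exact pow_le_pow_left₀ (by positivity) (by linarith) d
    _ = c2 * 3 ^ d * ((X : ℝ) / N) ^ d := by
        rw [mul_pow, div_pow]
        ring

lemma cv_kap_nonneg (k : ℕ) {Y : ℝ} (hY : 0 ≤ Y) (q : ℕ) : 0 ≤ kap k Y q := by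
  unfold kap
  positivity

lemma cv_low_meas (k : ℕ) (Y : ℝ) (q : ℕ) : MeasurableSet {κ : ℝ | low k Y q κ} := by
  have h : {κ : ℝ | low k Y q κ} = {_κ : ℝ | (q : ℝ) ≤ Y} ∩ {κ : ℝ | |κ| ≤ kap k Y q} := rfl
  rw [h]
  exact (MeasurableSet.const _).inter (measurableSet_le continuous_abs.measurable measurable_const)

/-- one major arc -/
lemma cv_arc {g : ℝ → ℝ} (hg : Continuous g) {M K Y : ℝ} {k q : ℕ} (hY : 0 ≤ Y)
    (hg0 : ∀ κ, 0 ≤ g κ) (hM : ∀ κ, g κ ≤ M) :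
    ∫ κ in {κ : ℝ | |κ| ≤ K}, g κ ≤ (∫ κ in {κ : ℝ | |κ| ≤ K ∧ ¬ low k Y q κ}, g κ) +
      (if (q : ℝ) ≤ Y then M * (2 * kap k Y q) else 0) := by
  have hM0 : 0 ≤ M := (hg0 0).trans (hM 0)
  have hset : {κ : ℝ | |κ| ≤ K} = Set.Icc (-K) K := by
    ext κ
    simp [abs_le]
  have hint : IntegrableOn g {κ : ℝ | |κ| ≤ K} := by
    rw [hset]
    exact hg.continuousOn.integrableOn_compact isCompact_Icc
  have h1 := MeasureTheory.integral_inter_add_sdiff (cv_low_meas k Y q) hint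
  have h2 : {κ : ℝ | |κ| ≤ K} \ {κ : ℝ | low k Y q κ} =
      {κ : ℝ | |κ| ≤ K ∧ ¬ low k Y q κ} := by
    ext κ
    simp
  rw [h2] at h1
  rw [← h1, add_comm]
  refine add_le_add le_rfl ?_
  split_ifs with hq
  · have hsub : {κ : ℝ | |κ| ≤ K} ∩ {κ : ℝ | low k Y q κ} ⊆
        Set.Icc (-(kap k Y q)) (kap k Y q) := by
      rintro κ ⟨-, h3, h4⟩
      exact abs_le.1 h4
    have hk := cv_kap_nonneg k hY q
    calc ∫ κ in {κ : ℝ | |κ| ≤ K} ∩ {κ : ℝ | low k Y q κ}, g κ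
        ≤ ∫ κ in Set.Icc (-(kap k Y q)) (kap k Y q), g κ := by
          refine setIntegral_mono_set (hg.continuousOn.integrableOn_compact isCompact_Icc)
            (Filter.Eventually.of_forall hg0) (Filter.Eventually.of_forall hsub)
      _ ≤ M * (volume.real (Set.Icc (-(kap k Y q)) (kap k Y q))) := by
          have h5 := norm_setIntegral_le_of_norm_le_const (μ := volume)
            (s := Set.Icc (-(kap k Y q)) (kap k Y q)) (f := g) (C := M)
            (by simp) (fun κ _ => by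
              rw [Real.norm_of_nonneg (hg0 κ)]
              exact hM κ)
          exact (le_abs_self _).trans h5
      _ = M * (2 * kap k Y q) := by
          rw [Real.volume_real_Icc_of_le (by linarith)]
          ring
  · have hempty : {κ : ℝ | |κ| ≤ K} ∩ {κ : ℝ | low k Y q κ} = ∅ := by
      ext κ
      simp only [Set.mem_inter_iff, Set.mem_ofPred_eq, Set.mem_empty_iff_false, iff_false, not_and]
      intro _ h3
      exact hq h3.1
    rw [hempty]
    simp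

lemma cv_res (q : ℕ) (hq : 1 ≤ q) : ((res q).card : ℝ) ≤ 2 * q := by
  have h1 : (res q).card ≤ q + 1 := by
    unfold res
    refine (Finset.card_filter_le _ _).trans ?_
    simp
  have h2 : ((res q).card : ℝ) ≤ q + 1 := by exact_mod_cast h1
  have h3 : (1 : ℝ) ≤ q := by exact_mod_cast hq
  linarith

theorem ks_CV (hARC : T_ARC) (hCI : T_CI) (hLW : T_LW) : T_CV := by
  intro k d hk hkd
  obtain ⟨C, hC, hLW'⟩ := hLW k hk
  refine ⟨4 * C * 3 ^ d, by positivity, ?_⟩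
  intro N c2 F x X l hN hc2 hX hl hS
  have hN0 : 0 < N := by linarith
  have hX0 : (0 : ℝ) < X := by exact_mod_cast hX
  obtain ⟨Y, hY⟩ : ∃ Y, Y = N ^ ((k : ℝ) / 2) := ⟨_, rfl⟩
  have hY1 : 1 ≤ Y := by
    rw [hY]
    exact Real.one_le_rpow hN (by positivity)
  have hY0 : 0 ≤ Y := by linarith
  have hY2 : Y ^ 2 = N ^ k := by
    rw [hY, ← Real.rpow_natCast, ← Real.rpow_mul hN0.le]
    have : (k : ℝ) / 2 * ((2 : ℕ) : ℝ) = k := by
      push_cast
      ring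
    rw [this, Real.rpow_natCast]
  obtain ⟨f, hf⟩ : ∃ f : ℝ → ℝ, f = fun θ => ‖KF k F X θ x‖ := ⟨_, rfl⟩
  have hfc : Continuous f := by
    rw [hf]
    exact (cv_cont k X F x).norm
  have hf0 : ∀ θ, 0 ≤ f θ := by
    intro θ
    rw [hf]
    exact norm_nonneg _
  obtain ⟨M, hM⟩ : ∃ M, M = c2 * 3 ^ d * ((X : ℝ) / N) ^ d := ⟨_, rfl⟩
  have hfM : ∀ θ, f θ ≤ M := by
    intro θ
    rw [hf, hM]
    exact cv_triv hN hc2 hX hS θ
  have hM0 : 0 ≤ M := (hf0 0).trans (hfM 0)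
  have h1 : (cnt k F x l : ℝ) ≤ ∫ θ in (0 : ℝ)..1, f θ := by
    have h2 := hCI k d X l F x (by omega) hl
    have h3 : (cnt k F x l : ℝ) = ‖((cnt k F x l : ℕ) : ℂ)‖ := by simp
    rw [h3, h2]
    refine (intervalIntegral.norm_integral_le_integral_norm zero_le_one).trans (le_of_eq ?_)
    refine intervalIntegral.integral_congr fun θ _ => ?_
    simp only [norm_mul, cv_norm, one_mul, hf]
  have h2 := hARC k X f hX hfc hf0
  rw [← hY]
  have h3 : ∑ q ∈ Finset.Icc 1 (Qx X), ∑ a ∈ res q,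
      ∫ κ in {κ : ℝ | |κ| ≤ (X : ℝ) ^ ((1 : ℝ) / 20)}, f (th k X a q κ) ≤
      (∑ q ∈ Finset.Icc 1 (Qx X), ∑ a ∈ res q,
        ∫ κ in {κ : ℝ | |κ| ≤ (X : ℝ) ^ ((1 : ℝ) / 20) ∧ ¬ low k Y q κ}, f (th k X a q κ)) +
      4 * M * (C * Y ^ 2) := by
    have h4 : ∀ q ∈ Finset.Icc 1 (Qx X), ∑ a ∈ res q,
        ∫ κ in {κ : ℝ | |κ| ≤ (X : ℝ) ^ ((1 : ℝ) / 20)}, f (th k X a q κ) ≤
        (∑ a ∈ res q,
          ∫ κ in {κ : ℝ | |κ| ≤ (X : ℝ) ^ ((1 : ℝ) / 20) ∧ ¬ low k Y q κ}, f (th k X a q κ)) +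
        (if (q : ℝ) ≤ Y then 4 * M * (q * kap k Y q) else 0) := by
      intro q hq
      rw [Finset.mem_Icc] at hq
      have h5 : ∀ a ∈ res q, ∫ κ in {κ : ℝ | |κ| ≤ (X : ℝ) ^ ((1 : ℝ) / 20)}, f (th k X a q κ) ≤
          (∫ κ in {κ : ℝ | |κ| ≤ (X : ℝ) ^ ((1 : ℝ) / 20) ∧ ¬ low k Y q κ}, f (th k X a q κ)) +
          (if (q : ℝ) ≤ Y then M * (2 * kap k Y q) else 0) := fun a _ =>
        cv_arc (hfc.comp (cv_th_cont k X a q)) hY0 (fun _ => hf0 _) fun _ => hfM _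
      refine (Finset.sum_le_sum h5).trans ?_
      rw [Finset.sum_add_distrib]
      refine add_le_add le_rfl ?_
      rw [Finset.sum_const, nsmul_eq_mul]
      have hk0 := cv_kap_nonneg k hY0 q
      split_ifs with h6
      · calc ((res q).card : ℝ) * (M * (2 * kap k Y q)) ≤ (2 * q) * (M * (2 * kap k Y q)) :=
              mul_le_mul_of_nonneg_right (cv_res q hq.1) (by positivity)
          _ = 4 * M * (q * kap k Y q) := by ring
      · simp
    refine (Finset.sum_le_sum h4).trans ?_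
    rw [Finset.sum_add_distrib]
    refine add_le_add le_rfl ?_
    rw [← Finset.sum_filter]
    calc ∑ q ∈ (Finset.Icc 1 (Qx X)).filter (fun q : ℕ => (q : ℝ) ≤ Y), 4 * M * (q * kap k Y q)
        ≤ ∑ q ∈ Finset.Icc 1 ⌊Y⌋₊, 4 * M * (q * kap k Y q) := by
          refine Finset.sum_le_sum_of_subset_of_nonneg (fun q hq => ?_) fun q _ _ => ?_
          · rw [Finset.mem_filter, Finset.mem_Icc] at hq
            rw [Finset.mem_Icc]
            exact ⟨hq.1.1, Nat.le_floor hq.2⟩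
          · have hk0 := cv_kap_nonneg k hY0 q
            positivity
      _ = 4 * M * ∑ q ∈ Finset.Icc 1 ⌊Y⌋₊, (q : ℝ) * kap k Y q := by rw [Finset.mul_sum]
      _ ≤ 4 * M * (C * Y ^ 2) := mul_le_mul_of_nonneg_left (hLW' Y hY1) (by positivity)
  have hXk : (0 : ℝ) < (X : ℝ) ^ k := by positivity
  have h5 : (1 / (X : ℝ) ^ k) * (4 * M * (C * Y ^ 2)) =
      4 * C * 3 ^ d * c2 * ((X : ℝ) / N) ^ (d - k) := by
    rw [hM, hY2]
    have h6 : ((X : ℝ) / N) ^ d = ((X : ℝ) / N) ^ (d - k) * ((X : ℝ) / N) ^ k := by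
      rw [← pow_add, Nat.sub_add_cancel hkd]
    rw [h6, div_pow (X : ℝ) N k]
    field_simp
  have h6 := mul_le_mul_of_nonneg_left h3 (by positivity : (0 : ℝ) ≤ 1 / (X : ℝ) ^ k)
  rw [mul_add, h5] at h6
  rw [hf] at h1 h2 h6
  simp only [] at h1 h2 h6
  linarith

end Pool.Agent.H4.KS
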