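import Pool.Agent.H98.KS.Targets4

/-!
# MP_ff41bc_an, module L2: solutions modulo powers of large primes
-/

set_option autoImplicit false

open scoped BigOperators
open Finset

namespace Pool.Agent.H4.KS

open Pool.Agent.H98.KS

lemma l2_add (x y : ℝ) : ee (x + y) = ee x * ee y := by
  unfold ee
  rw [← Complex.exp_add]
  congr 1
  push_cast
  ring

lemma l2_int (n : ℤ) : ee (n : ℝ) = 1 := by
  unfold ee
  rw [Complex.exp_eq_one_iff]
  exact ⟨n, by push_cast; ring⟩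

lemma l2_norm (x : ℝ) : ‖ee x‖ = 1 := by
  unfold ee
  have h : (2 * (Real.pi : ℂ) * (x : ℂ) * Complex.I) = ((2 * Real.pi * x : ℝ) : ℂ) * Complex.I := by
    push_cast
    ring
  rw [h, Complex.norm_exp_ofReal_mul_I]

lemma l2_zero : ee 0 = 1 := by
  have := l2_int 0
  simpa using this

lemma l2_sum {ι : Type} (s : Finset ι) (f : ι → ℝ) : ee (∑ i ∈ s, f i) = ∏ i ∈ s, ee (f i) := by
  classical
  induction s using Finset.induction_on with
  | empty => simp [l2_zero]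
  | insert a s ha ih => rw [Finset.sum_insert ha, Finset.prod_insert ha, l2_add, ih]

lemma l2_pow (x : ℝ) (n : ℕ) : ee x ^ n = ee (n * x) := by
  induction n with
  | zero => simp [l2_zero]
  | succ n ih =>
    rw [pow_succ, ih, ← l2_add]
    congr 1
    push_cast
    ring

lemma l2_eq_one {x : ℝ} (h : ee x = 1) : ∃ n : ℤ, x = n := by
  unfold ee at h
  rw [Complex.exp_eq_one_iff] at h
  obtain ⟨n, hn⟩ := h
  refine ⟨n, ?_⟩
  have h2 : (2 * (Real.pi : ℂ) * Complex.I) ≠ 0 := Complex.two_pi_I_ne_zero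
  have h3 : (x : ℂ) = n := by
    have h4 : (2 * (Real.pi : ℂ) * Complex.I) * x = (2 * (Real.pi : ℂ) * Complex.I) * n := by
      linear_combination hn
    exact mul_left_cancel₀ h2 h4
  exact_mod_cast h3

/-- orthogonality -/
lemma l2_orth {W : ℕ} (hW : 1 ≤ W) (m : ℤ) :
    ∑ a ∈ range W, ee (((a * m : ℤ) : ℝ) / W) = if (W : ℤ) ∣ m then (W : ℂ) else 0 := by
  have hW0 : (W : ℝ) ≠ 0 := by
    have : (0 : ℝ) < W := by exact_mod_cast hW
    exact this.ne'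
  have h1 : ∀ a ∈ range W, ee (((a * m : ℤ) : ℝ) / W) = ee ((m : ℝ) / W) ^ a := by
    intro a _
    rw [l2_pow]
    congr 1
    push_cast
    ring
  rw [Finset.sum_congr rfl h1]
  split_ifs with h
  · obtain ⟨c, rfl⟩ := h
    have h2 : ee (((W * c : ℤ) : ℝ) / W) = 1 := by
      have h3 : (((W * c : ℤ) : ℝ) / W) = ((c : ℤ) : ℝ) := by
        push_cast
        field_simp
      rw [h3, l2_int]
    rw [h2]
    simp
  · have h2 : ee ((m : ℝ) / W) ≠ 1 := by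
      intro h3
      obtain ⟨n, hn⟩ := l2_eq_one h3
      apply h
      rw [div_eq_iff hW0] at hn
      refine ⟨n, ?_⟩
      have h4 : (m : ℝ) = ((n * W : ℤ) : ℝ) := by
        push_cast
        exact hn
      have h5 : m = n * W := by exact_mod_cast h4
      rw [h5]
      ring
    have h3 : ee ((m : ℝ) / W) ^ W = 1 := by
      rw [l2_pow]
      have h4 : (W : ℝ) * ((m : ℝ) / W) = ((m : ℤ) : ℝ) := by field_simp
      rw [h4, l2_int]
    rw [geom_sum_eq h2, h3, sub_self, zero_div]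

/-- the number of solutions by orthogonality -/
lemma l2_count {W : ℕ} (hW : 1 ≤ W) (k d l : ℕ) :
    (W : ℂ) * (LS k d W l : ℂ) = ∑ a ∈ range W, ee (-((a * l : ℕ) : ℝ) / W) *
      ((W : ℂ) * GG k a 0 W) ^ d := by
  have hW0 : (W : ℂ) ≠ 0 := by
    have : W ≠ 0 := by omega
    exact_mod_cast this
  have h0 : ∀ a : ℕ, (W : ℂ) * GG k a 0 W =
      ∑ r ∈ range W, ee ((((a : ℤ) * (r : ℤ) ^ k + 0 * r : ℤ) : ℝ) / W) := by
    intro a
    unfold GG
    field_simp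
  have h1 : (W : ℂ) * (LS k d W l : ℂ) =
      ∑ s ∈ Fintype.piFinset (fun _ : Fin d => range W),
        ∑ a ∈ range W, ee (((a * (((∑ i, s i ^ k : ℕ) : ℤ) - l) : ℤ) : ℝ) / W) := by
    unfold LS
    rw [Finset.card_filter]
    push_cast
    rw [Finset.mul_sum]
    refine Finset.sum_congr rfl fun s _ => ?_
    have h2 := l2_orth hW (((∑ i, s i ^ k : ℕ) : ℤ) - l)
    push_cast at h2
    rw [h2]
    have h3 : ((∑ i, s i ^ k) ≡ l [MOD W]) ↔ (W : ℤ) ∣ (∑ i, (s i : ℤ) ^ k) - l := by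
      rw [Nat.ModEq.comm, Nat.modEq_iff_dvd]
      push_cast
      exact Iff.rfl
    by_cases h4 : (W : ℤ) ∣ (∑ i, (s i : ℤ) ^ k) - l
    · rw [if_pos h4, if_pos (h3.2 h4), mul_one]
    · rw [if_neg h4, if_neg (fun h => h4 (h3.1 h)), mul_zero]
  rw [h1, Finset.sum_comm]
  refine Finset.sum_congr rfl fun a _ => ?_
  rw [h0, ← Fin.prod_const, Finset.prod_univ_sum, Finset.mul_sum]
  refine Finset.sum_congr rfl fun s _ => ?_
  rw [← l2_sum, ← l2_add]
  congr 1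
  have h5 : ∑ i, (((a : ℤ) * (s i : ℤ) ^ k + 0 * (s i : ℤ) : ℤ) : ℝ) / (W : ℝ) =
      (a : ℝ) * (∑ i, (s i : ℝ) ^ k) / W := by
    rw [Finset.mul_sum, Finset.sum_div]
    refine Finset.sum_congr rfl fun i _ => ?_
    push_cast
    ring
  rw [h5]
  push_cast
  ring

/-- periodicity of the summand -/
lemma l2_per (k W : ℕ) (hW : 1 ≤ W) (a : ℤ) (x m : ℕ) :
    ee (((a * ((W * m + x : ℕ) : ℤ) ^ k + 0 * ((W * m + x : ℕ) : ℤ) : ℤ) : ℝ) / W) =
    ee (((a * (x : ℤ) ^ k + 0 * (x : ℤ) : ℤ) : ℝ) / W) := by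
  have hW0 : (W : ℝ) ≠ 0 := by
    have : (0 : ℝ) < W := by exact_mod_cast hW
    exact this.ne'
  have h1 : (W : ℤ) ∣ ((W * m + x : ℕ) : ℤ) ^ k - (x : ℤ) ^ k := by
    refine dvd_trans ?_ (sub_dvd_pow_sub_pow _ _ k)
    refine ⟨m, ?_⟩
    push_cast
    ring
  obtain ⟨c, hc⟩ := h1
  have h2 : ((W * m + x : ℕ) : ℤ) ^ k = (x : ℤ) ^ k + W * c := by linarith
  rw [h2]
  have h3 : (((a * ((x : ℤ) ^ k + W * c) + 0 * ((W * m + x : ℕ) : ℤ) : ℤ) : ℝ) / W) =
      (((a * (x : ℤ) ^ k + 0 * (x : ℤ) : ℤ) : ℝ) / W) + ((a * c : ℤ) : ℝ) := by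
    push_cast
    field_simp
    ring
  rw [h3, l2_add, l2_int, mul_one]

lemma l2_blocks (k W : ℕ) (hW : 1 ≤ W) (a : ℤ) (p : ℕ) :
    ∑ r ∈ range (W * p), ee (((a * (r : ℤ) ^ k + 0 * (r : ℤ) : ℤ) : ℝ) / W) =
    p * ∑ r ∈ range W, ee (((a * (r : ℤ) ^ k + 0 * (r : ℤ) : ℤ) : ℝ) / W) := by
  induction p with
  | zero => simp
  | succ p ih =>
    rw [show W * (p + 1) = W * p + W by ring, Finset.sum_range_add, ih]
    rw [Finset.sum_congr rfl fun x _ => l2_per k W hW a x p]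
    push_cast
    ring

/-- reduction of the denominator -/
lemma l2_red (k W p : ℕ) (hW : 1 ≤ W) (hp : 1 ≤ p) (a : ℤ) :
    GG k (p * a) 0 (W * p) = GG k a 0 W := by
  have hW0 : (W : ℂ) ≠ 0 := by
    have : W ≠ 0 := by omega
    exact_mod_cast this
  have hp0 : (p : ℂ) ≠ 0 := by
    have : p ≠ 0 := by omega
    exact_mod_cast this
  have hp0' : (p : ℝ) ≠ 0 := by
    have : p ≠ 0 := by omega
    exact_mod_cast this
  have hW0' : (W : ℝ) ≠ 0 := by
    have : W ≠ 0 := by omega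
    exact_mod_cast this
  unfold GG
  have h1 : ∀ r ∈ range (W * p),
      ee ((((p * a) * (r : ℤ) ^ k + 0 * (r : ℤ) : ℤ) : ℝ) / ((W * p : ℕ) : ℝ)) =
      ee (((a * (r : ℤ) ^ k + 0 * (r : ℤ) : ℤ) : ℝ) / W) := by
    intro r _
    congr 1
    push_cast
    field_simp
    ring
  rw [Finset.sum_congr rfl h1, l2_blocks k W hW a p]
  push_cast
  field_simp

/-- the sum of the norms -/
noncomputable def l2S (k d W : ℕ) : ℝ := ∑ a ∈ range W, ‖GG k a 0 W‖ ^ d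

lemma l2_split (k d W p : ℕ) (hW : 1 ≤ W) (hp : 1 ≤ p) :
    l2S k d (W * p) = l2S k d W +
      ∑ a ∈ (range (W * p)).filter (fun a => ¬ p ∣ a), ‖GG k a 0 (W * p)‖ ^ d := by
  unfold l2S
  rw [← Finset.sum_filter_add_sum_filter_not (range (W * p)) (fun a => p ∣ a)]
  congr 1
  symm
  refine Finset.sum_bij (fun a _ => p * a) ?_ ?_ ?_ ?_
  · intro a ha
    rw [mem_range] at ha
    rw [mem_filter, mem_range]
    refine ⟨?_, dvd_mul_right _ _⟩
    rw [mul_comm]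
    exact Nat.mul_lt_mul_of_pos_right ha (by omega)
  · intro a _ b _ h
    exact Nat.eq_of_mul_eq_mul_left (by omega) h
  · intro b hb
    rw [mem_filter, mem_range] at hb
    obtain ⟨hb1, c, rfl⟩ := hb
    refine ⟨c, ?_, rfl⟩
    rw [mem_range]
    by_contra h
    push Not at h
    have := Nat.mul_le_mul_left p h
    rw [mul_comm p W] at this
    omega
  · intro a _
    have h1 := l2_red k W p hW hp (a : ℤ)
    push_cast
    rw [h1]

lemma l2_bound {k d p : ℕ} (hk : 2 ≤ k) (hp : p.Prime) (hd : 4 * k ≤ d)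
    (hG : ∀ (j : ℕ) (a : ℤ), ¬ (p : ℤ) ∣ a →
      ‖GG k a 0 (p ^ j)‖ ≤ ((p : ℝ) ^ j) ^ (-(1 / (k : ℝ)))) (n : ℕ) :
    l2S k d (p ^ n) ≤ 1 + 1 / (p : ℝ) ^ 2 - 1 / (p : ℝ) ^ (n + 2) := by
  have hp2 : (2 : ℝ) ≤ p := by exact_mod_cast hp.two_le
  have hp0 : (0 : ℝ) < p := by linarith
  induction n with
  | zero =>
    have h1 : l2S k d (p ^ 0) ≤ 1 := by
      unfold l2S
      simp only [pow_zero, range_one, sum_singleton]
      refine pow_le_one₀ (norm_nonneg _) ?_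
      unfold GG
      simp [l2_norm]
    simpa using h1
  | succ n ih =>
    have hpn : 1 ≤ p ^ n := Nat.one_le_pow _ _ hp.pos
    rw [pow_succ, l2_split k d (p ^ n) p hpn hp.one_le]
    have h1 : ∀ a ∈ (range (p ^ n * p)).filter (fun a => ¬ p ∣ a),
        ‖GG k a 0 (p ^ n * p)‖ ^ d ≤ 1 / ((p : ℝ) ^ (n + 1)) ^ 4 := by
      intro a ha
      rw [mem_filter] at ha
      have h2 := hG (n + 1) a (by
        intro h
        exact ha.2 (by exact_mod_cast h))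
      rw [pow_succ] at h2
      have hx : (1 : ℝ) ≤ (p : ℝ) ^ (n + 1) := one_le_pow₀ (by linarith)
      have hx0 : (0 : ℝ) ≤ (p : ℝ) ^ (n + 1) := by positivity
      have hk0 : (0 : ℝ) < k := by
        have : 0 < k := by omega
        exact_mod_cast this
      calc ‖GG k a 0 (p ^ n * p)‖ ^ d ≤ (((p : ℝ) ^ (n + 1)) ^ (-(1 / (k : ℝ)))) ^ d :=
            pow_le_pow_left₀ (norm_nonneg _) (by rw [pow_succ]; exact h2) d
        _ = ((p : ℝ) ^ (n + 1)) ^ (-(1 / (k : ℝ)) * d) := by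
            rw [← Real.rpow_natCast, ← Real.rpow_mul hx0]
        _ ≤ ((p : ℝ) ^ (n + 1)) ^ (-(4 : ℝ)) := by
            apply Real.rpow_le_rpow_of_exponent_le hx
            have h3 : (4 : ℝ) * k ≤ d := by exact_mod_cast hd
            have h4 : -(1 / (k : ℝ)) * d = -(d / k) := by ring
            rw [h4, neg_le_neg_iff, le_div_iff₀ hk0]
            exact h3
        _ = 1 / ((p : ℝ) ^ (n + 1)) ^ 4 := by
            rw [Real.rpow_neg hx0, one_div]
            congr 1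
            exact_mod_cast Real.rpow_natCast ((p : ℝ) ^ (n + 1)) 4
    have h2 : ∑ a ∈ (range (p ^ n * p)).filter (fun a => ¬ p ∣ a), ‖GG k a 0 (p ^ n * p)‖ ^ d ≤
        1 / ((p : ℝ) ^ (n + 1)) ^ 3 := by
      refine (Finset.sum_le_card_nsmul _ _ _ h1).trans ?_
      rw [nsmul_eq_mul]
      have h3 : ((((range (p ^ n * p)).filter (fun a => ¬ p ∣ a)).card : ℕ) : ℝ) ≤
          (p : ℝ) ^ (n + 1) := by
        have h4 : ((range (p ^ n * p)).filter (fun a => ¬ p ∣ a)).card ≤ p ^ n * p := by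
          refine (Finset.card_filter_le _ _).trans ?_
          simp
        have h5 : (((p ^ n * p : ℕ)) : ℝ) = (p : ℝ) ^ (n + 1) := by push_cast; ring
        rw [← h5]
        exact_mod_cast h4
      have hx0 : (0 : ℝ) < (p : ℝ) ^ (n + 1) := by positivity
      calc _ ≤ (p : ℝ) ^ (n + 1) * (1 / ((p : ℝ) ^ (n + 1)) ^ 4) :=
            mul_le_mul_of_nonneg_right h3 (by positivity)
        _ = 1 / ((p : ℝ) ^ (n + 1)) ^ 3 := by field_simp
    have h3 : 1 / ((p : ℝ) ^ (n + 1)) ^ 3 ≤ 1 / (p : ℝ) ^ (n + 2) - 1 / (p : ℝ) ^ (n + 1 + 2) := by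
      have h4 : 1 / (p : ℝ) ^ (n + 2) - 1 / (p : ℝ) ^ (n + 1 + 2) =
          ((p : ℝ) - 1) / (p : ℝ) ^ (n + 3) := by
        field_simp
        ring
      rw [h4, ← pow_mul]
      have h5 : (p : ℝ) ^ (n + 3) ≤ (p : ℝ) ^ ((n + 1) * 3) :=
        pow_le_pow_right₀ (by linarith) (by nlinarith)
      calc 1 / (p : ℝ) ^ ((n + 1) * 3) ≤ 1 / (p : ℝ) ^ (n + 3) :=
            one_div_le_one_div_of_le (by positivity) h5
        _ ≤ ((p : ℝ) - 1) / (p : ℝ) ^ (n + 3) := by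
            gcongr
            linarith
    linarith

theorem ks_L2 : T_L2 := by
  intro k d p n l hk hp hd hG
  obtain ⟨W, hWdef⟩ : ∃ W, W = p ^ n := ⟨_, rfl⟩
  have hW1 : 1 ≤ W := by
    rw [hWdef]
    exact Nat.one_le_pow _ _ hp.pos
  have hWr : (0 : ℝ) < W := by exact_mod_cast hW1
  have hp0 : (0 : ℝ) < p := by exact_mod_cast hp.pos
  have hb := l2_bound hk hp hd hG n
  rw [← hWdef] at hb
  have hc := l2_count hW1 k d l
  rw [← Nat.sub_add_cancel hW1, Finset.sum_range_succ'] at hc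
  rw [Nat.sub_add_cancel hW1] at hc
  have hG0 : GG k ((0 : ℕ) : ℤ) 0 W = 1 := by
    unfold GG
    have hWc : (W : ℂ) ≠ 0 := by exact_mod_cast hWr.ne'
    simp [l2_zero]
    field_simp
  have h0 : ee (-((0 * l : ℕ) : ℝ) / W) = 1 := by simp [l2_zero]
  rw [hG0, h0, mul_one, one_mul] at hc
  have hS : l2S k d W = ∑ a ∈ range (W - 1), ‖GG k ((a + 1 : ℕ) : ℤ) 0 W‖ ^ d + 1 := by
    unfold l2S
    conv_lhs => rw [← Nat.sub_add_cancel hW1]
    rw [Finset.sum_range_succ', Nat.sub_add_cancel hW1, hG0]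
    simp
  have hE : ‖(W : ℂ) * (LS k d W l : ℂ) - (W : ℂ) ^ d‖ ≤ (W : ℝ) ^ d * (1 / (p : ℝ) ^ 2) := by
    rw [hc, add_sub_cancel_right]
    refine (norm_sum_le _ _).trans ?_
    have h1 : ∀ a ∈ range (W - 1), ‖ee (-(((a + 1) * l : ℕ) : ℝ) / W) *
        ((W : ℂ) * GG k ((a + 1 : ℕ) : ℤ) 0 W) ^ d‖ =
        (W : ℝ) ^ d * ‖GG k ((a + 1 : ℕ) : ℤ) 0 W‖ ^ d := by
      intro a _
      rw [norm_mul, l2_norm, one_mul, norm_pow, norm_mul, mul_pow, Complex.norm_natCast]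
    rw [Finset.sum_congr rfl h1, ← Finset.mul_sum]
    refine mul_le_mul_of_nonneg_left ?_ (by positivity)
    have h2 : (0 : ℝ) ≤ 1 / (p : ℝ) ^ (n + 2) := by positivity
    linarith
  have hre : (W : ℝ) ^ d - (W : ℝ) ^ d * (1 / (p : ℝ) ^ 2) ≤ (W : ℝ) * (LS k d W l : ℝ) := by
    have h1 : (W : ℂ) * (LS k d W l : ℂ) - (W : ℂ) ^ d =
        (((W : ℝ) * (LS k d W l : ℝ) - (W : ℝ) ^ d : ℝ) : ℂ) := by
      push_cast
      ring
    rw [h1, Complex.norm_real, Real.norm_eq_abs] at hE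
    have h2 := (abs_le.1 hE).1
    linarith
  have hd1 : 1 ≤ d := by omega
  have hWd : (W : ℝ) ^ d = W * (W : ℝ) ^ (d - 1) := by
    rw [← pow_succ', Nat.sub_add_cancel hd1]
  have hpn : (p : ℝ) ^ (n * (d - 1)) = (W : ℝ) ^ (d - 1) := by
    rw [hWdef]
    push_cast
    rw [pow_mul]
  rw [hpn, ← hWdef]
  rw [hWd] at hre
  have h3 : (W : ℝ) * ((1 - 1 / (p : ℝ) ^ 2) * (W : ℝ) ^ (d - 1)) ≤ (W : ℝ) * (LS k d W l : ℝ) := by
    linarith
  exact le_of_mul_le_mul_left h3 hWr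

end Pool.Agent.H4.KS
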