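import Pool.Agent.H98.KS.Targets3
import Pool.Agent.H98.KS.Targets4

/-!
# MP_ff41bc_an, module L5: comparison of `NN` with its average
-/

set_option autoImplicit false

open scoped BigOperators
open Finset MeasureTheory

namespace Pool.Agent.H4.KS

open Pool.Agent.H98.KS

lemma l5_add (x y : ℝ) : ee (x + y) = ee x * ee y := by
  unfold ee
  rw [← Complex.exp_add]
  congr 1
  push_cast
  ring

lemma l5_int (n : ℤ) : ee (n : ℝ) = 1 := by
  unfold ee
  rw [Complex.exp_eq_one_iff]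
  exact ⟨n, by push_cast; ring⟩

lemma l5_norm (x : ℝ) : ‖ee x‖ = 1 := by
  unfold ee
  have h : (2 * (Real.pi : ℂ) * (x : ℂ) * Complex.I) = ((2 * Real.pi * x : ℝ) : ℂ) * Complex.I := by
    push_cast
    ring
  rw [h, Complex.norm_exp_ofReal_mul_I]

lemma l5_cont : Continuous ee := by
  unfold ee
  fun_prop

lemma l5_one_sub (x : ℝ) : ‖1 - ee x‖ ≤ 7 * |x| := by
  have h := Real.norm_exp_I_mul_ofReal_sub_one_le (x := 2 * Real.pi * x)
  have h1 : ee x = Complex.exp (Complex.I * ((2 * Real.pi * x : ℝ) : ℂ)) := by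
    unfold ee
    congr 1
    push_cast
    ring
  rw [norm_sub_rev, h1]
  refine h.trans ?_
  rw [Real.norm_eq_abs, abs_mul, abs_of_pos (by positivity : 0 < 2 * Real.pi)]
  have hpi := Real.pi_lt_d2
  exact mul_le_mul_of_nonneg_right (by linarith) (abs_nonneg x)

/-- the mean of the exponentials -/
noncomputable def l5w (W J : ℕ) (θ : ℝ) : ℂ :=
  (1 / (2 * (J : ℂ) + 1)) * ∑ j ∈ range (2 * J + 1), ee (-(θ * (((j : ℝ) - J) * W)))

lemma l5w_cont (W J : ℕ) : Continuous (l5w W J) := by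
  unfold l5w
  refine continuous_const.mul (continuous_finsetSum _ fun j _ => ?_)
  exact l5_cont.comp (by fun_prop)

/-- averages of `1 - ee` -/
lemma l5_mean (J : ℕ) (x : ℕ → ℝ) (B : ℝ) (h : ∀ j ∈ range (2 * J + 1), ‖1 - ee (x j)‖ ≤ B) :
    ‖1 - (1 / (2 * (J : ℂ) + 1)) * ∑ j ∈ range (2 * J + 1), ee (x j)‖ ≤ B := by
  have h0 : (2 * (J : ℂ) + 1) ≠ 0 := by
    have : (2 * J + 1 : ℕ) ≠ 0 := by omega
    exact_mod_cast this
  have h1 : 1 - (1 / (2 * (J : ℂ) + 1)) * ∑ j ∈ range (2 * J + 1), ee (x j) =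
      (1 / (2 * (J : ℂ) + 1)) * ∑ j ∈ range (2 * J + 1), (1 - ee (x j)) := by
    rw [Finset.sum_sub_distrib, mul_sub]
    congr 1
    simp only [sum_const, card_range, nsmul_eq_mul, mul_one]
    push_cast
    field_simp
  rw [h1, norm_mul]
  have h2 : ‖∑ j ∈ range (2 * J + 1), (1 - ee (x j))‖ ≤ (2 * (J : ℝ) + 1) * B := by
    refine (norm_sum_le _ _).trans ((Finset.sum_le_card_nsmul _ _ _ h).trans (le_of_eq ?_))
    rw [card_range, nsmul_eq_mul]
    push_cast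
    ring
  have h3 : ‖(1 / (2 * (J : ℂ) + 1))‖ = 1 / (2 * (J : ℝ) + 1) := by
    rw [norm_div, norm_one]
    congr 1
    have h4 : (2 * (J : ℂ) + 1) = ((2 * J + 1 : ℕ) : ℂ) := by push_cast; ring
    rw [h4, Complex.norm_natCast]
    push_cast
    ring
  rw [h3]
  have h5 : (0 : ℝ) < 2 * (J : ℝ) + 1 := by positivity
  calc 1 / (2 * (J : ℝ) + 1) * ‖∑ j ∈ range (2 * J + 1), (1 - ee (x j))‖
      ≤ 1 / (2 * (J : ℝ) + 1) * ((2 * (J : ℝ) + 1) * B) :=
        mul_le_mul_of_nonneg_left h2 (by positivity)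
    _ = B := by field_simp

lemma l5w_two (W J : ℕ) (θ : ℝ) : ‖1 - l5w W J θ‖ ≤ 2 := by
  unfold l5w
  refine l5_mean J (fun j => -(θ * (((j : ℝ) - J) * W))) 2 fun j _ => ?_
  refine (norm_sub_le _ _).trans ?_
  rw [l5_norm, norm_one]
  norm_num

lemma l5w_small {k X W J q : ℕ} {η κ : ℝ} (a : ℤ) (hX : 1 ≤ X) (hq : 1 ≤ q) (hqW : q ∣ W)
    (hη : ((J * W : ℕ) : ℝ) ≤ η * (X : ℝ) ^ k) :
    ‖1 - l5w W J (th k X a q κ)‖ ≤ 7 * (η * |κ|) := by
  obtain ⟨c, rfl⟩ := hqW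
  have hX0 : (0 : ℝ) < (X : ℝ) ^ k := by
    have : (0 : ℝ) < X := by exact_mod_cast hX
    positivity
  have hq0 : (q : ℝ) ≠ 0 := by
    have : (0 : ℝ) < q := by exact_mod_cast hq
    exact this.ne'
  have h1 : ∀ j : ℕ, ee (-(th k X a q κ * (((j : ℝ) - J) * ((q * c : ℕ) : ℝ)))) =
      ee (-(κ / (X : ℝ) ^ k * (((j : ℝ) - J) * ((q * c : ℕ) : ℝ)))) := by
    intro j
    have h2 : -(th k X a q κ * (((j : ℝ) - J) * ((q * c : ℕ) : ℝ))) =
        ((-(a * ((j : ℤ) - J) * c) : ℤ) : ℝ) +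
          -(κ / (X : ℝ) ^ k * (((j : ℝ) - J) * ((q * c : ℕ) : ℝ))) := by
      unfold th
      push_cast
      field_simp
      ring
    rw [h2, l5_add, l5_int, one_mul]
  unfold l5w
  rw [Finset.sum_congr rfl fun j _ => h1 j]
  refine l5_mean J (fun j => -(κ / (X : ℝ) ^ k * (((j : ℝ) - J) * ((q * c : ℕ) : ℝ)))) _
    fun j hj => (l5_one_sub _).trans ?_
  have h3 : |(j : ℝ) - J| ≤ J := by
    rw [mem_range] at hj
    have h4 : (j : ℝ) ≤ 2 * J := by
      have : j ≤ 2 * J := by omega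
      exact_mod_cast this
    rw [abs_le]
    constructor <;> linarith [Nat.cast_nonneg (α := ℝ) j]
  rw [abs_neg, abs_mul, abs_div, abs_mul, abs_of_pos hX0, abs_of_nonneg (Nat.cast_nonneg (α := ℝ) (q * c))]
  have h5 : |(j : ℝ) - J| * ((q * c : ℕ) : ℝ) ≤ η * (X : ℝ) ^ k := by
    refine le_trans ?_ hη
    rw [Nat.cast_mul J]
    exact mul_le_mul_of_nonneg_right h3 (Nat.cast_nonneg _)
  have h6 : |κ| / (X : ℝ) ^ k * (|(j : ℝ) - J| * ((q * c : ℕ) : ℝ)) ≤ η * |κ| := by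
    calc |κ| / (X : ℝ) ^ k * (|(j : ℝ) - J| * ((q * c : ℕ) : ℝ))
        ≤ |κ| / (X : ℝ) ^ k * (η * (X : ℝ) ^ k) :=
          mul_le_mul_of_nonneg_left h5 (by positivity)
      _ = η * |κ| := by field_simp
  linarith

lemma l5_Ss_cont (k X : ℕ) : Continuous fun θ : ℝ => Ss k X θ 0 := by
  unfold Ss
  refine continuous_finsetSum _ fun n _ => ?_
  exact l5_cont.comp (by fun_prop)

/-- the integral representation -/
lemma l5_repr (hNI : T_NI) {k d X l W J : ℕ} (hk : 1 ≤ k) (hJ : J * W ≤ l)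
    (hl : l + J * W ≤ X ^ k) :
    (((NN k d l : ℝ) - AvN k d l W J : ℝ) : ℂ) =
      ∫ θ in (0 : ℝ)..1, ee (-(θ * l)) * (1 - l5w W J θ) * (Ss k X θ 0) ^ d := by
  have hc : ∀ m : ℝ, Continuous fun θ : ℝ => ee (-(θ * m)) * (Ss k X θ 0) ^ d := fun m =>
    (l5_cont.comp (by fun_prop)).mul ((l5_Ss_cont k X).pow d)
  have h1 := hNI k d X l hk (by omega)
  have h2 : ((AvN k d l W J : ℝ) : ℂ) =
      ∫ θ in (0 : ℝ)..1, ee (-(θ * l)) * l5w W J θ * (Ss k X θ 0) ^ d := by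
    unfold AvN
    push_cast
    have h3 : ∀ j ∈ range (2 * J + 1), ((NN k d (l - J * W + j * W) : ℕ) : ℂ) =
        ∫ θ in (0 : ℝ)..1, ee (-(θ * ((l - J * W + j * W : ℕ) : ℝ))) * (Ss k X θ 0) ^ d := by
      intro j hj
      rw [mem_range] at hj
      refine hNI k d X _ hk ?_
      have h4 : j * W ≤ 2 * J * W := Nat.mul_le_mul_right W (by omega)
      have h5 : 2 * J * W = J * W + J * W := by ring
      omega
    rw [Finset.sum_congr rfl h3, ← intervalIntegral.integral_finsetSum,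
      ← intervalIntegral.integral_const_mul]
    · refine intervalIntegral.integral_congr fun θ _ => ?_
      unfold l5w
      rw [← Finset.sum_mul]
      have h6 : ∀ j ∈ range (2 * J + 1), ee (-(θ * ((l - J * W + j * W : ℕ) : ℝ))) =
          ee (-(θ * l)) * ee (-(θ * (((j : ℝ) - J) * W))) := by
        intro j _
        rw [← l5_add]
        congr 1
        rw [Nat.cast_add, Nat.cast_sub hJ]
        push_cast
        ring
      rw [Finset.sum_congr rfl h6, ← Finset.mul_sum]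
      ring
    · intro j _
      exact (hc _).intervalIntegrable _ _
  rw [Complex.ofReal_sub, Complex.ofReal_natCast, h1, h2, ← intervalIntegral.integral_sub]
  · refine intervalIntegral.integral_congr fun θ _ => ?_
    ring
  · exact (hc _).intervalIntegrable _ _
  · refine Continuous.intervalIntegrable ?_ _ _
    exact ((l5_cont.comp (by fun_prop)).mul (l5w_cont W J)).mul ((l5_Ss_cont k X).pow d)

lemma l5_res (q : ℕ) (hq : 1 ≤ q) : ((res q).card : ℝ) ≤ 2 * q := by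
  have h1 : (res q).card ≤ q + 1 := by
    unfold res
    refine (Finset.card_filter_le _ _).trans ?_
    simp
  have h2 : ((res q).card : ℝ) ≤ q + 1 := by exact_mod_cast h1
  have h3 : (1 : ℝ) ≤ q := by exact_mod_cast hq
  linarith

lemma l5_sum (n : ℕ) : ∑ q ∈ Finset.Icc 1 n, 1 / (q : ℝ) ^ 2 ≤ 2 := by
  rcases Nat.eq_zero_or_pos n with rfl | hn
  · simp
  have h : ∑ q ∈ Finset.Icc 1 n, 1 / (q : ℝ) ^ 2 ≤ 2 - 1 / (n : ℝ) := by
    induction n, hn using Nat.le_induction with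
    | base => norm_num
    | succ n hn ih =>
      rw [Finset.sum_Icc_succ_top (by omega)]
      have hn0 : (0 : ℝ) < n := by exact_mod_cast hn
      have h1 : 1 / (((n + 1 : ℕ)) : ℝ) ^ 2 ≤ 1 / (n : ℝ) - 1 / ((n + 1 : ℕ) : ℝ) := by
        push_cast
        rw [div_sub_div _ _ hn0.ne' (by positivity), div_le_div_iff₀ (by positivity) (by positivity)]
        nlinarith
      linarith
  have h1 : 0 ≤ 1 / (n : ℝ) := by positivity
  linarith

/-- decay of `bb0 ^ d` -/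
lemma l5_bb {k d q : ℕ} {κ : ℝ} (hk : 3 ≤ k) (hd : 6 * k ≤ d) (hq : 1 ≤ q) :
    bb0 k q κ ^ d ≤ 1 / (q : ℝ) ^ 4 * (1 / (1 + |κ|) ^ 3) := by
  have hq1 : (1 : ℝ) ≤ q := by exact_mod_cast hq
  have hq0 : (0 : ℝ) ≤ q := by linarith
  have hκ : (1 : ℝ) ≤ 1 + |κ| := by linarith [abs_nonneg κ]
  have hκ0 : (0 : ℝ) ≤ 1 + |κ| := by linarith
  have hk3 : (3 : ℝ) ≤ k := by exact_mod_cast hk
  have hd6 : 6 * (k : ℝ) ≤ d := by exact_mod_cast hd
  unfold bb0
  rw [mul_pow]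
  refine mul_le_mul ?_ ?_ (by positivity) (by positivity)
  · rw [← Real.rpow_natCast ((q : ℝ) ^ (-(1 / (k : ℝ)))) d, ← Real.rpow_mul hq0]
    have h1 : 1 / (q : ℝ) ^ 4 = (q : ℝ) ^ (-(4 : ℝ)) := by
      rw [Real.rpow_neg hq0, one_div]
      congr 1
      exact_mod_cast (Real.rpow_natCast (q : ℝ) 4).symm
    rw [h1]
    apply Real.rpow_le_rpow_of_exponent_le hq1
    have h2 : -(1 / (k : ℝ)) * d = -(d / k) := by ring
    rw [h2, neg_le_neg_iff, le_div_iff₀ (by linarith)]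
    linarith
  · rw [← Real.rpow_natCast ((1 + |κ|) ^ (-(e0 k))) d, ← Real.rpow_mul hκ0]
    have h1 : 1 / (1 + |κ|) ^ 3 = (1 + |κ|) ^ (-(3 : ℝ)) := by
      rw [Real.rpow_neg hκ0, one_div]
      congr 1
      exact_mod_cast (Real.rpow_natCast (1 + |κ|) 3).symm
    rw [h1]
    apply Real.rpow_le_rpow_of_exponent_le hκ
    unfold e0
    have h2 : -(1 / (2 * ((k : ℝ) - 1))) * d = -(d / (2 * ((k : ℝ) - 1))) := by ring
    rw [h2, neg_le_neg_iff, le_div_iff₀ (by linarith)]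
    linarith

theorem ks_L5 (hNI : T_NI) (hMIN : T_MIN) (hSB : T_SB) (hARC : T_ARC)
    (hGB : ∀ k : ℕ, 3 ≤ k → ∃ C : ℝ, GB k C) (hWK : T_WK) : T_L5 := by
  intro k hk
  obtain ⟨A, hA⟩ := hWK k (by omega)
  obtain ⟨c5, C1, hc5, hc51, hC1, hmin⟩ := hMIN k A hk hA
  obtain ⟨Cg, hCg⟩ := hGB k hk
  obtain ⟨C2, hC2, hsb⟩ := hSB k Cg hk hCg
  refine ⟨max (6 * k) ⌈((k : ℝ) + 1) / c5⌉₊, fun d hd => ?_⟩
  have hd6 : 6 * k ≤ d := (le_max_left _ _).trans hd
  have hdc : (k : ℝ) + 1 ≤ c5 * d := by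
    have h1 : ⌈((k : ℝ) + 1) / c5⌉₊ ≤ d := (le_max_right _ _).trans hd
    have h2 : ((k : ℝ) + 1) / c5 ≤ d := (Nat.le_ceil _).trans (by exact_mod_cast h1)
    rw [div_le_iff₀ hc5] at h2
    linarith
  have hkd : k < d := by omega
  refine ⟨hkd, 2 * C1 ^ d + 112 * C2 ^ d, by positivity, ?_⟩
  intro X l W J Q1 η K hX hW hQ1 hdiv hK hη0 hη1 hJl hlX hJW
  have hXr : (1 : ℝ) ≤ X := by exact_mod_cast hX
  have hX0 : (0 : ℝ) < X := by linarith
  have hK0 : 0 < K := by linarith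
  have hQ0 : (0 : ℝ) < Q1 := by exact_mod_cast hQ1
  obtain ⟨f, hf⟩ : ∃ f : ℝ → ℝ, f = fun θ => ‖1 - l5w W J θ‖ * ‖Ss k X θ 0‖ ^ d := ⟨_, rfl⟩
  have hfc : Continuous f := by
    rw [hf]
    exact (continuous_const.sub (l5w_cont W J)).norm.mul ((l5_Ss_cont k X).norm.pow d)
  have hf0 : ∀ θ, 0 ≤ f θ := by
    intro θ
    rw [hf]
    positivity
  have h1 : |(NN k d l : ℝ) - AvN k d l W J| ≤ ∫ θ in (0 : ℝ)..1, f θ := by
    rw [← Real.norm_eq_abs, ← Complex.norm_real, l5_repr hNI (by omega) hJl hlX]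
    refine (intervalIntegral.norm_integral_le_integral_norm zero_le_one).trans (le_of_eq ?_)
    refine intervalIntegral.integral_congr fun θ _ => ?_
    simp only [norm_mul, l5_norm, one_mul, norm_pow, hf]
  have h2 := hARC k X f hX hfc hf0
  -- minor arcs
  have hXd : ((X : ℝ) ^ (1 - c5)) ^ d ≤ (X : ℝ) ^ (d - k) * (1 / X) := by
    rw [← Real.rpow_natCast ((X : ℝ) ^ (1 - c5)) d, ← Real.rpow_mul hX0.le]
    have h3 : (X : ℝ) ^ (d - k) * (1 / X) = (X : ℝ) ^ (((d - k : ℕ) : ℝ) - 1) := by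
      rw [Real.rpow_sub_one hX0.ne', Real.rpow_natCast]
      ring
    rw [h3]
    apply Real.rpow_le_rpow_of_exponent_le hXr
    rw [Nat.cast_sub hkd.le]
    nlinarith
  have hminor : ∫ θ in MinS k X, f θ ≤ 2 * C1 ^ d * ((X : ℝ) ^ (d - k) * (1 / X)) := by
    have hsub : MinS k X ⊆ Set.Icc 0 1 := fun θ hθ => ⟨hθ.1, hθ.2.1⟩
    have hvol : volume (MinS k X) ≤ 1 := by
      refine (measure_mono hsub).trans ?_
      simp
    have hB : ∀ θ ∈ MinS k X, ‖f θ‖ ≤ 2 * C1 ^ d * ((X : ℝ) ^ (d - k) * (1 / X)) := by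
      intro θ hθ
      rw [Real.norm_of_nonneg (hf0 θ), hf]
      have h3 := hmin X θ 0 hX hθ
      calc ‖1 - l5w W J θ‖ * ‖Ss k X θ 0‖ ^ d ≤ 2 * (C1 * (X : ℝ) ^ (1 - c5)) ^ d := by
            refine mul_le_mul (l5w_two W J θ) ?_ (by positivity) (by norm_num)
            exact pow_le_pow_left₀ (norm_nonneg _) h3 d
        _ = 2 * C1 ^ d * ((X : ℝ) ^ (1 - c5)) ^ d := by rw [mul_pow]; ring
        _ ≤ _ := mul_le_mul_of_nonneg_left hXd (by positivity)
    have h3 := norm_setIntegral_le_of_norm_le_const (μ := volume) (s := MinS k X) (f := f)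
      (C := 2 * C1 ^ d * ((X : ℝ) ^ (d - k) * (1 / X))) (lt_of_le_of_lt hvol ENNReal.one_lt_top) hB
    refine (le_abs_self _).trans (h3.trans ?_)
    have h4 : volume.real (MinS k X) ≤ 1 := by
      unfold Measure.real
      exact ENNReal.toReal_le_of_le_ofReal zero_le_one (by simpa using hvol)
    exact mul_le_of_le_one_right (by positivity) h4
  -- major arcs
  obtain ⟨Δ, hΔ⟩ : ∃ Δ, Δ = η * K + 1 / K + 1 / Q1 := ⟨_, rfl⟩
  have hΔ0 : 0 ≤ Δ := by
    rw [hΔ]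
    positivity
  have hpt : ∀ q ∈ Finset.Icc 1 (Qx X), ∀ a ∈ res q, ∀ κ ∈ {κ : ℝ | |κ| ≤ (X : ℝ) ^ ((1 : ℝ) / 20)},
      f (th k X a q κ) ≤ 7 * (C2 * X) ^ d * Δ * (1 / (q : ℝ) ^ 3) * (1 + κ ^ 2)⁻¹ := by
    intro q hq a ha κ hκ
    rw [Finset.mem_Icc] at hq
    have hq1 : (1 : ℝ) ≤ q := by exact_mod_cast hq.1
    have hq0 : (0 : ℝ) < q := by linarith
    have hbig : big X q κ := by
      refine ⟨?_, hκ⟩
      have h3 : (q : ℝ) ≤ (Qx X : ℕ) := by exact_mod_cast hq.2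
      exact h3.trans (Nat.floor_le (by positivity))
    have hcop : IsCoprime (a : ℤ) (q : ℤ) := by
      unfold res at ha
      exact Nat.isCoprime_iff_coprime.2 (Finset.mem_filter.1 ha).2
    have h3 := (hsb X q a 0 κ 0 hq.1 hX hcop hbig (by
      rw [abs_zero]
      positivity)).1
    have h4 : (((0 : ℤ) : ℝ) / q + 0) = 0 := by simp
    rw [h4, div_le_iff₀ hX0] at h3
    have h5 : ‖Ss k X (th k X a q κ) 0‖ ^ d ≤ (C2 * X) ^ d *
        (1 / (q : ℝ) ^ 4 * (1 / (1 + |κ|) ^ 3)) := by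
      calc ‖Ss k X (th k X a q κ) 0‖ ^ d ≤ (C2 * bb0 k q κ * X) ^ d :=
            pow_le_pow_left₀ (norm_nonneg _) h3 d
        _ = (C2 * X) ^ d * bb0 k q κ ^ d := by
            rw [← mul_pow]
            congr 1
            ring
        _ ≤ _ := mul_le_mul_of_nonneg_left (l5_bb hk hd6 hq.1) (by positivity)
    have hκ1 : (0 : ℝ) < 1 + |κ| := by linarith [abs_nonneg κ]
    -- the factor `1 - w`
    have h6 : ‖1 - l5w W J (th k X a q κ)‖ * (1 / (1 + |κ|) ^ 3) ≤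
        7 * (Δ * q) * (1 + κ ^ 2)⁻¹ := by
      have h7 : 1 / (1 + |κ|) ^ 2 ≤ (1 + κ ^ 2)⁻¹ := by
        rw [one_div]
        apply inv_anti₀ (by positivity)
        have : κ ^ 2 = |κ| ^ 2 := (sq_abs κ).symm
        rw [this]
        nlinarith [abs_nonneg κ]
      have h8 : ‖1 - l5w W J (th k X a q κ)‖ * (1 / (1 + |κ|) ^ 3) ≤
          7 * (Δ * q) * (1 / (1 + |κ|) ^ 2) := by
        have h9 : 1 / (1 + |κ|) ^ 3 = 1 / (1 + |κ|) * (1 / (1 + |κ|) ^ 2) := by
          rw [one_div_mul_one_div]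
          congr 1
          ring
        rw [h9, ← mul_assoc]
        refine mul_le_mul_of_nonneg_right ?_ (by positivity)
        have hone : 1 / (1 + |κ|) ≤ 1 := by
          rw [div_le_one hκ1]
          linarith [abs_nonneg κ]
        by_cases hqQ : q ≤ Q1
        · have h10 := l5w_small (η := η) (κ := κ) a hX hq.1 (hdiv q hq.1 hqQ) hJW
          by_cases hκK : |κ| ≤ K
          · calc ‖1 - l5w W J (th k X a q κ)‖ * (1 / (1 + |κ|))
                ≤ 7 * (η * |κ|) * 1 :=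
                  mul_le_mul h10 hone (by positivity) (by positivity)
              _ ≤ 7 * (Δ * q) := by
                  have h11 : η * |κ| ≤ η * K := mul_le_mul_of_nonneg_left hκK hη0.le
                  have h12 : η * K ≤ Δ := by
                    rw [hΔ]
                    have : 0 ≤ 1 / K + 1 / (Q1 : ℝ) := by positivity
                    linarith
                  have h13 : Δ ≤ Δ * q := le_mul_of_one_le_right hΔ0 hq1
                  linarith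
          · push Not at hκK
            have h11 : 1 / (1 + |κ|) ≤ 1 / K := one_div_le_one_div_of_le hK0 (by linarith)
            calc ‖1 - l5w W J (th k X a q κ)‖ * (1 / (1 + |κ|)) ≤ 2 * (1 / K) :=
                  mul_le_mul (l5w_two W J _) h11 (by positivity) (by norm_num)
              _ ≤ 7 * (Δ * q) := by
                  have h12 : 1 / K ≤ Δ := by
                    rw [hΔ]
                    have : 0 ≤ η * K + 1 / (Q1 : ℝ) := by positivity
                    linarith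
                  have h13 : Δ ≤ Δ * q := le_mul_of_one_le_right hΔ0 hq1
                  have h14 : 0 ≤ 1 / K := by positivity
                  linarith
        · push Not at hqQ
          calc ‖1 - l5w W J (th k X a q κ)‖ * (1 / (1 + |κ|)) ≤ 2 * 1 :=
                mul_le_mul (l5w_two W J _) hone (by positivity) (by norm_num)
            _ ≤ 7 * (Δ * q) := by
                have h12 : 1 / (Q1 : ℝ) ≤ Δ := by
                  rw [hΔ]
                  have : 0 ≤ η * K + 1 / K := by positivity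
                  linarith
                have h13 : (Q1 : ℝ) ≤ q := by exact_mod_cast hqQ.le
                have h14 : 1 ≤ Δ * q := by
                  calc (1 : ℝ) = 1 / (Q1 : ℝ) * Q1 := by field_simp
                    _ ≤ Δ * q := mul_le_mul h12 h13 hQ0.le hΔ0
                linarith
      exact h8.trans (mul_le_mul_of_nonneg_left h7 (by positivity))
    rw [hf]
    calc ‖1 - l5w W J (th k X a q κ)‖ * ‖Ss k X (th k X a q κ) 0‖ ^ d
        ≤ ‖1 - l5w W J (th k X a q κ)‖ * ((C2 * X) ^ d *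
          (1 / (q : ℝ) ^ 4 * (1 / (1 + |κ|) ^ 3))) :=
          mul_le_mul_of_nonneg_left h5 (norm_nonneg _)
      _ = (C2 * X) ^ d * (1 / (q : ℝ) ^ 4) *
          (‖1 - l5w W J (th k X a q κ)‖ * (1 / (1 + |κ|) ^ 3)) := by ring
      _ ≤ (C2 * X) ^ d * (1 / (q : ℝ) ^ 4) * (7 * (Δ * q) * (1 + κ ^ 2)⁻¹) :=
          mul_le_mul_of_nonneg_left h6 (by positivity)
      _ = 7 * (C2 * X) ^ d * Δ * (1 / (q : ℝ) ^ 3) * (1 + κ ^ 2)⁻¹ := by
          field_simp
  have hint : ∀ q ∈ Finset.Icc 1 (Qx X), ∀ a ∈ res q,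
      ∫ κ in {κ : ℝ | |κ| ≤ (X : ℝ) ^ ((1 : ℝ) / 20)}, f (th k X a q κ) ≤
      28 * (C2 * X) ^ d * Δ * (1 / (q : ℝ) ^ 3) := by
    intro q hq a ha
    have hms : MeasurableSet {κ : ℝ | |κ| ≤ (X : ℝ) ^ ((1 : ℝ) / 20)} :=
      measurableSet_le continuous_abs.measurable measurable_const
    have hcst : 0 ≤ 7 * (C2 * X) ^ d * Δ * (1 / (q : ℝ) ^ 3) := by positivity
    have hI := (integrable_inv_one_add_sq).const_mul (7 * (C2 * X) ^ d * Δ * (1 / (q : ℝ) ^ 3))
    calc ∫ κ in {κ : ℝ | |κ| ≤ (X : ℝ) ^ ((1 : ℝ) / 20)}, f (th k X a q κ)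
        ≤ ∫ κ in {κ : ℝ | |κ| ≤ (X : ℝ) ^ ((1 : ℝ) / 20)},
          7 * (C2 * X) ^ d * Δ * (1 / (q : ℝ) ^ 3) * (1 + κ ^ 2)⁻¹ := by
          refine setIntegral_mono_on ?_ hI.integrableOn hms (hpt q hq a ha)
          have hset : {κ : ℝ | |κ| ≤ (X : ℝ) ^ ((1 : ℝ) / 20)} =
              Set.Icc (-((X : ℝ) ^ ((1 : ℝ) / 20))) ((X : ℝ) ^ ((1 : ℝ) / 20)) := by
            ext κ
            exact ⟨fun h => abs_le.1 h, fun h => abs_le.2 h⟩
          rw [hset]
          refine ContinuousOn.integrableOn_compact isCompact_Icc ?_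
          refine (hfc.comp ?_).continuousOn
          unfold th
          fun_prop
      _ ≤ ∫ κ : ℝ, 7 * (C2 * X) ^ d * Δ * (1 / (q : ℝ) ^ 3) * (1 + κ ^ 2)⁻¹ :=
          setIntegral_le_integral hI (Filter.Eventually.of_forall fun κ => by positivity)
      _ = 7 * (C2 * X) ^ d * Δ * (1 / (q : ℝ) ^ 3) * Real.pi := by
          rw [integral_const_mul, integral_univ_inv_one_add_sq]
      _ ≤ 28 * (C2 * X) ^ d * Δ * (1 / (q : ℝ) ^ 3) := by
          have hpi := Real.pi_le_four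
          nlinarith
  have hmajor : ∑ q ∈ Finset.Icc 1 (Qx X), ∑ a ∈ res q,
      ∫ κ in {κ : ℝ | |κ| ≤ (X : ℝ) ^ ((1 : ℝ) / 20)}, f (th k X a q κ) ≤
      112 * (C2 * X) ^ d * Δ := by
    calc ∑ q ∈ Finset.Icc 1 (Qx X), ∑ a ∈ res q,
        ∫ κ in {κ : ℝ | |κ| ≤ (X : ℝ) ^ ((1 : ℝ) / 20)}, f (th k X a q κ)
        ≤ ∑ q ∈ Finset.Icc 1 (Qx X), 56 * (C2 * X) ^ d * Δ * (1 / (q : ℝ) ^ 2) := by
          refine Finset.sum_le_sum fun q hq => ?_
          refine (Finset.sum_le_card_nsmul _ _ _ (hint q hq)).trans ?_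
          rw [nsmul_eq_mul]
          have hq1 := (Finset.mem_Icc.1 hq).1
          have hq0 : (0 : ℝ) < q := by exact_mod_cast hq1
          calc ((res q).card : ℝ) * (28 * (C2 * X) ^ d * Δ * (1 / (q : ℝ) ^ 3))
              ≤ (2 * q) * (28 * (C2 * X) ^ d * Δ * (1 / (q : ℝ) ^ 3)) :=
                mul_le_mul_of_nonneg_right (l5_res q hq1) (by positivity)
            _ = 56 * (C2 * X) ^ d * Δ * (1 / (q : ℝ) ^ 2) := by
                field_simp
                ring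
      _ = 56 * (C2 * X) ^ d * Δ * ∑ q ∈ Finset.Icc 1 (Qx X), 1 / (q : ℝ) ^ 2 := by
          rw [Finset.mul_sum]
      _ ≤ 56 * (C2 * X) ^ d * Δ * 2 :=
          mul_le_mul_of_nonneg_left (l5_sum _) (by positivity)
      _ = 112 * (C2 * X) ^ d * Δ := by ring
  have hXk : (0 : ℝ) < (X : ℝ) ^ k := by positivity
  have h3 : 1 / (X : ℝ) ^ k * (112 * (C2 * X) ^ d * Δ) = 112 * C2 ^ d * ((X : ℝ) ^ (d - k) * Δ) := by
    have h4 : (X : ℝ) ^ d = (X : ℝ) ^ (d - k) * (X : ℝ) ^ k := by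
      rw [← pow_add, Nat.sub_add_cancel hkd.le]
    rw [mul_pow, h4]
    field_simp
  have h4 := mul_le_mul_of_nonneg_left hmajor (by positivity : (0 : ℝ) ≤ 1 / (X : ℝ) ^ k)
  rw [h3] at h4
  have hfin : |(NN k d l : ℝ) - AvN k d l W J| ≤
      2 * C1 ^ d * ((X : ℝ) ^ (d - k) * (1 / X)) + 112 * C2 ^ d * ((X : ℝ) ^ (d - k) * Δ) := by
    linarith
  refine hfin.trans ?_
  have hP : 0 ≤ (X : ℝ) ^ (d - k) * (1 / X) := by positivity
  have hR : 0 ≤ (X : ℝ) ^ (d - k) * Δ := by positivity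
  have hC1d : 0 ≤ C1 ^ d := by positivity
  have hC2d : 0 ≤ C2 ^ d := by positivity
  have h5 : (2 * C1 ^ d + 112 * C2 ^ d) * (X : ℝ) ^ (d - k) * (η * K + 1 / K + 1 / Q1 + 1 / X) =
      (2 * C1 ^ d + 112 * C2 ^ d) * ((X : ℝ) ^ (d - k) * Δ + (X : ℝ) ^ (d - k) * (1 / X)) := by
    rw [hΔ]
    ring
  rw [h5]
  nlinarith [mul_nonneg hC1d hR, mul_nonneg hC2d hP]

end Pool.Agent.H4.KS
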